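import Mathlib

/-!
# Closed subgroups of the product of a minimal abelian group and a compact group

If `A` is a minimal abelian group and `K` is a compact group then every closed subgroup of `A × K` is
minimal, and if `A` is totally minimal then every closed subgroup of `A × K` is totally minimal.

Idea: let `S` be a closed subgroup of `A × K` and let `p : S → A` be the projection. It is a perfect
homomorphism onto a closed subgroup of `A`. If `σ` is a coarser Hausdorff group topology on `S`, then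
the sets `U * p W` (`U` a neighbourhood of `1` in `A`, `W` a `σ`-neighbourhood of `1` in `S`) form a
base of a coarser Hausdorff group topology of the abelian group `A`; so `p` is `σ`-continuous, and since
`σ` also agrees with the given topology on the compact kernel of `p` the two topologies coincide.
-/

set_option autoImplicit false

open Filter Topology Pointwise

namespace Pool.Agent.Results.MP_35204b_gt.MinimalTimesCompact

universe u v

/-- A topological group `(G, τ)` is minimal: `G` has no Hausdorff group topology which is strictly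
coarser than `τ` (in Mathlib `τ ≤ σ` says that `σ` is coarser than `τ`). -/
def Minimal (G : Type u) [Group G] [τ : TopologicalSpace G] : Prop :=
  ∀ σ : TopologicalSpace G, @IsTopologicalGroup G σ _ → @T2Space G σ → τ ≤ σ → σ = τ

/-- A topological group `G` is totally minimal: for every closed normal subgroup `N` the quotient
`G ⧸ N`, with the quotient topology, is minimal. -/
def TotallyMinimal (G : Type u) [Group G] [TopologicalSpace G] : Prop :=
  ∀ (N : Subgroup G) [N.Normal], IsClosed (N : Set G) → Minimal (G ⧸ N)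

/-- `G` is c-minimal: every closed subgroup of `G` is minimal. -/
def CMinimal (G : Type u) [Group G] [TopologicalSpace G] : Prop :=
  ∀ S : Subgroup G, IsClosed (S : Set G) → Minimal S

/-- `G` is c-totally minimal: every closed subgroup of `G` is totally minimal. -/
def CTotallyMinimal (G : Type u) [Group G] [TopologicalSpace G] : Prop :=
  ∀ S : Subgroup G, IsClosed (S : Set G) → TotallyMinimal S

theorem le_of_one {G : Type u} [Group G] (τ ρ : TopologicalSpace G)
    (h1 : @IsTopologicalGroup G τ _) (h2 : @IsTopologicalGroup G ρ _)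
    (h : @nhds G τ 1 ≤ @nhds G ρ 1) : τ ≤ ρ := by
  refine le_of_nhds_le_nhds fun x => ?_
  have e1 : Filter.map (fun y => x * y) (@nhds G τ 1) = @nhds G τ x :=
    @map_mul_left_nhds_one G τ _ _ x
  have e2 : Filter.map (fun y => x * y) (@nhds G ρ 1) = @nhds G ρ x :=
    @map_mul_left_nhds_one G ρ _ _ x
  rw [← e1, ← e2]
  exact Filter.map_mono h

theorem facts {Z : Type u} [Group Z] [TopologicalSpace Z] [IsTopologicalGroup Z] :
    (∀ A ∈ 𝓝 (1 : Z), ∃ A' ∈ 𝓝 (1 : Z), A' * A' ⊆ A) ∧ (∀ A ∈ 𝓝 (1 : Z), A⁻¹ ∈ 𝓝 (1 : Z)) := by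
  have h1 : ∀ A ∈ 𝓝 (1 : Z), ∃ A' ∈ 𝓝 (1 : Z), A' * A' ⊆ A := by
    intro A hA
    obtain ⟨V, hV, h1, h2⟩ := exists_open_nhds_one_mul_subset hA
    exact ⟨V, hV.mem_nhds h1, h2⟩
  exact ⟨h1, fun A hA => by simpa using inv_mem_nhds_one Z hA⟩

/-- in a Hausdorff topological group, a point outside a compact subgroup `K0` lies outside `W * W * K0`
for some neighbourhood `W` of the identity -/
theorem sep_compact {Z : Type u} [Group Z] [TopologicalSpace Z] [IsTopologicalGroup Z] [T2Space Z]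
    (K0 : Subgroup Z) (hK : IsCompact (K0 : Set Z)) (s : Z) (hs : s ∉ K0) :
    ∃ W ∈ 𝓝 (1 : Z), ∀ a ∈ W, ∀ b ∈ W, ∀ k ∈ K0, a * b * k ≠ s := by
  have hcl : IsClosed (K0 : Set Z) := hK.isClosed
  have h1 : {u : Z | u⁻¹ * s ∉ K0} ∈ 𝓝 (1 : Z) := by
    have h2 : Continuous fun u : Z => u⁻¹ * s := by fun_prop
    exact (hcl.isOpen_compl.preimage h2).mem_nhds (by simpa using hs)
  obtain ⟨W, hW, hWW⟩ := (facts (Z := Z)).1 _ h1
  refine ⟨W, hW, fun a ha b hb k hk he => ?_⟩
  have h3 : a * b ∈ {u : Z | u⁻¹ * s ∉ K0} := hWW ⟨a, ha, b, hb, rfl⟩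
  apply h3
  have : (a * b)⁻¹ * s = k := by rw [← he]; group
  rw [this]; exact hk

/-- The main lemma: let `f : S → B` be a homomorphism into a minimal abelian group which has
compact kernel, closed range, and which is open onto its range. Then `S` is minimal. -/
theorem key {S : Type u} {B : Type v} [Group S] [τ : TopologicalSpace S] [IsTopologicalGroup S]
    [CommGroup B] [β : TopologicalSpace B] [IsTopologicalGroup B] [T2Space B]
    (hB : Minimal B) (f : S →* B) (hr : IsClosed (Set.range f))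
    (hk : IsCompact (f.ker : Set S))
    (ho : ∀ V ∈ 𝓝 (1 : S), ∃ O ∈ 𝓝 (1 : B), ∀ s, f s ∈ O → ∃ v ∈ V, f v = f s) :
    Minimal S := by
  classical
  intro σ hσ hσ2 hle
  have hone : ∀ A ∈ @nhds S σ 1, (1 : S) ∈ A := fun A hA => @mem_of_mem_nhds S σ 1 A hA
  have hkσ : @IsCompact S σ (f.ker : Set S) := by
    have h1 := @IsCompact.image S S τ σ (f.ker : Set S) id hk (continuous_id_iff_le.2 hle)
    simpa using h1
  obtain ⟨f1, f2⟩ := @facts S _ σ hσ
  obtain ⟨g1, g2⟩ := @facts B _ _ _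
  let Bas : GroupFilterBasis B :=
    { sets := {T | ∃ U ∈ 𝓝 (1 : B), ∃ W ∈ @nhds S σ 1, T = U * (f '' W)}
      nonempty := ⟨_, Set.univ, univ_mem, Set.univ, univ_mem, rfl⟩
      inter_sets := by
        rintro _ _ ⟨U, hU, A, hA, rfl⟩ ⟨U', hU', A', hA', rfl⟩
        refine ⟨_, ⟨U ∩ U', inter_mem hU hU', A ∩ A', inter_mem hA hA', rfl⟩, ?_⟩
        refine Set.subset_inter ?_ ?_
        · exact Set.mul_subset_mul Set.inter_subset_left (Set.image_mono Set.inter_subset_left)
        · exact Set.mul_subset_mul Set.inter_subset_right (Set.image_mono Set.inter_subset_right)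
      one' := by
        rintro _ ⟨U, hU, A, hA, rfl⟩
        exact ⟨1, mem_of_mem_nhds hU, 1, ⟨1, hone A hA, map_one f⟩, one_mul 1⟩
      mul' := by
        rintro _ ⟨U, hU, A, hA, rfl⟩
        obtain ⟨U', hU', h1⟩ := g1 U hU
        obtain ⟨A', hA', h2⟩ := f1 A hA
        refine ⟨_, ⟨U', hU', A', hA', rfl⟩, ?_⟩
        rintro _ ⟨_, ⟨u, hu, _, ⟨a, ha, rfl⟩, rfl⟩, _, ⟨u', hu', _, ⟨a', ha', rfl⟩, rfl⟩, rfl⟩
        refine ⟨u * u', h1 ⟨u, hu, u', hu', rfl⟩, _, ⟨a * a', h2 ⟨a, ha, a', ha', rfl⟩, rfl⟩, ?_⟩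
        change u * u' * f (a * a') = u * f a * (u' * f a')
        rw [map_mul]
        exact mul_mul_mul_comm _ _ _ _
      inv' := by
        rintro _ ⟨U, hU, A, hA, rfl⟩
        refine ⟨_, ⟨U⁻¹, g2 U hU, A⁻¹, f2 A hA, rfl⟩, ?_⟩
        rintro _ ⟨u, hu, _, ⟨a, ha, rfl⟩, rfl⟩
        refine ⟨u⁻¹, hu, _, ⟨a⁻¹, ha, rfl⟩, ?_⟩
        change u⁻¹ * f (a⁻¹) = (u * f a)⁻¹
        rw [map_inv, mul_inv]
      conj' := by
        rintro x0 _ ⟨U, hU, A, hA, rfl⟩
        refine ⟨_, ⟨U, hU, A, hA, rfl⟩, ?_⟩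
        intro y hy
        have h1 : x0 * y * x0⁻¹ = y := by rw [mul_comm x0 y]; group
        refine Set.mem_preimage.2 ?_
        rw [h1]
        exact hy }
  have hsub : ∀ W ∈ @nhds S σ 1, ∃ O ∈ 𝓝 (1 : B), ∀ s, f s ∈ O → ∃ v ∈ W, f v = f s :=
    fun W hW => ho W (nhds_mono hle hW)
  have hmem : ∀ {T : Set B}, T ∈ Bas ↔
      ∃ U ∈ @nhds B β 1, ∃ W ∈ @nhds S σ 1, T = U * (f '' W) := Iff.rfl
  have hropen : ∀ x : B, x ∉ Set.range f → {u : B | u⁻¹ * x ∉ Set.range f} ∈ 𝓝 (1 : B) := by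
    intro x hxr
    have h2 : Continuous fun u : B => u⁻¹ * x := by fun_prop
    exact (hr.isOpen_compl.preimage h2).mem_nhds (by simpa using hxr)
  let ρ : TopologicalSpace B := Bas.topology
  have hρ : @IsTopologicalGroup B ρ _ := Bas.isTopologicalGroup
  have hb : (@nhds B ρ 1).HasBasis (fun S => S ∈ Bas) id := Bas.nhds_one_hasBasis
  have hle1 : β ≤ ρ := by
    refine le_of_one β ρ inferInstance hρ ?_
    intro T hT
    obtain ⟨T', hT', hTT⟩ := hb.mem_iff.1 hT
    obtain ⟨U, hU, W, hW, rfl⟩ := hmem.1 hT'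
    exact mem_of_superset hU fun u hu => hTT ⟨u, hu, 1, ⟨1, hone W hW, map_one f⟩, mul_one u⟩
  have hT2 : @T2Space B ρ := by
    refine @IsTopologicalGroup.t2Space_of_one_sep B ρ _ hρ ?_
    intro x hx
    by_cases hxr : x ∈ Set.range f
    · obtain ⟨s, rfl⟩ := hxr
      have hs : s ∉ f.ker := fun h => hx h
      obtain ⟨W, hW, hWs⟩ := @sep_compact S _ σ hσ hσ2 f.ker hkσ s hs
      obtain ⟨O, hO, hOW⟩ := hsub W hW
      refine ⟨_, hb.mem_of_mem (hmem.2 ⟨O, hO, W, hW, rfl⟩), ?_⟩
      rintro ⟨u, hu, _, ⟨w, hw, rfl⟩, huw⟩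
      change u * f w = f s at huw
      have hu' : u = f (s * w⁻¹) := by rw [map_mul, map_inv, ← huw]; simp
      obtain ⟨v, hv, hvs⟩ := hOW (s * w⁻¹) (hu' ▸ hu)
      have h1 : f (v * w) = f s := by rw [map_mul, hvs, ← hu', huw]
      have h2 : (v * w)⁻¹ * s ∈ f.ker := by
        rw [MonoidHom.mem_ker, map_mul, map_inv, h1]; simp
      refine hWs v hv w hw _ h2 ?_
      group
    · have hU := hropen x hxr
      refine ⟨_, hb.mem_of_mem (hmem.2 ⟨_, hU, Set.univ, univ_mem, rfl⟩), ?_⟩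
      rintro ⟨u, hu, _, ⟨a, -, rfl⟩, hua⟩
      change u * f a = x at hua
      apply hu
      rw [← hua]
      exact ⟨a, by simp⟩
  have heq : ρ = β := hB ρ hρ hT2 hle1
  -- `f` is continuous for `σ`
  have hfσ : ∀ O ∈ @nhds B β 1, ∃ W ∈ @nhds S σ 1, ∀ w ∈ W, f w ∈ O := by
    intro O hO
    have hO' : O ∈ @nhds B ρ 1 := by rw [heq]; exact hO
    obtain ⟨T, hT, hTO⟩ := hb.mem_iff.1 hO'
    obtain ⟨U, hU, W, hW, rfl⟩ := hmem.1 hT
    exact ⟨W, hW, fun w hw => hTO ⟨1, @mem_of_mem_nhds B β 1 U hU, f w, ⟨w, hw, rfl⟩, one_mul _⟩⟩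
  -- `σ` agrees with `τ` on the kernel
  have hker : ∀ V ∈ @nhds S τ 1, ∃ W ∈ @nhds S σ 1, ∀ w ∈ W, w ∈ f.ker → w ∈ V := by
    intro V hV
    obtain ⟨V', hV', hV'o, h1V'⟩ := (@_root_.mem_nhds_iff S τ 1 V).1 hV
    have hc : @IsCompact S τ ((f.ker : Set S) \ V') := @IsCompact.diff S τ _ _ hk hV'o
    have hcσ : @IsCompact S σ ((f.ker : Set S) \ V') := by
      have h1 := @IsCompact.image S S τ σ _ id hc (continuous_id_iff_le.2 hle)
      simpa using h1
    have hcl := @IsCompact.isClosed S σ hσ2 _ hcσ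
    have hclo : @IsOpen S σ ((f.ker : Set S) \ V')ᶜ := (@isOpen_compl_iff S _ σ).2 hcl
    refine ⟨((f.ker : Set S) \ V')ᶜ, @IsOpen.mem_nhds S σ 1 _ hclo
      (fun h => h.2 h1V'), fun w hw hwk => ?_⟩
    by_contra hwV
    exact hw ⟨hwk, fun h => hwV (hV' h)⟩
  refine le_antisymm ?_ hle
  refine le_of_one σ τ hσ inferInstance ?_
  intro U hU
  obtain ⟨V, hV, hVV⟩ := (@facts S _ τ _).1 U hU
  obtain ⟨W, hW, hWV⟩ := hker V hV
  obtain ⟨W1, hW1, hWW1⟩ := f1 W hW
  have hW2 : W1 ∩ W1⁻¹ ∈ @nhds S σ 1 := inter_mem hW1 (f2 W1 hW1)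
  obtain ⟨O, hO, hOV⟩ := ho (V ∩ (W1 ∩ W1⁻¹)) (inter_mem hV (nhds_mono hle hW2))
  obtain ⟨W3, hW3, hWO⟩ := hfσ O hO
  refine mem_of_superset (inter_mem hW3 hW1) ?_
  rintro w ⟨hw3, hw1⟩
  obtain ⟨v, ⟨hvV, hvW, hvW'⟩, hvw⟩ := hOV w (hWO w hw3)
  have h1 : v⁻¹ * w ∈ f.ker := by rw [MonoidHom.mem_ker, map_mul, map_inv, hvw]; simp
  have h2 : v⁻¹ * w ∈ W := hWW1 ⟨v⁻¹, hvW', w, hw1, rfl⟩
  have h3 : v⁻¹ * w ∈ V := hWV _ h2 h1
  have h4 : v * (v⁻¹ * w) ∈ U := hVV ⟨v, hvV, _, h3, rfl⟩
  simpa using h4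

/-- **Answer to Q1 and Q2.** Let `A` be a Hausdorff abelian topological group and `K` a compact
Hausdorff group. If `A` is minimal, then every closed subgroup of `A × K` is minimal; if `A` is totally
minimal, then every closed subgroup of `A × K` is totally minimal. -/
theorem result (A : Type u) [CommGroup A] [TopologicalSpace A] [IsTopologicalGroup A] [T2Space A]
    (K : Type v) [Group K] [TopologicalSpace K] [IsTopologicalGroup K] [T2Space K]
    [CompactSpace K] :
    (Minimal A → CMinimal (A × K)) ∧ (TotallyMinimal A → CTotallyMinimal (A × K)) := by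
  classical
  -- the projection of a closed subset of `A × K` is closed
  have hcp : ∀ C : Set (A × K), IsClosed C → IsClosed (Prod.fst '' C) :=
    fun C hC => isClosedMap_fst_of_compactSpace C hC
  -- the projection of a closed subgroup is open onto its image
  have hop : ∀ S : Subgroup (A × K), IsClosed (S : Set (A × K)) → ∀ V ∈ 𝓝 (1 : S),
      ∃ O : Set A, IsOpen O ∧ (1 : A) ∈ O ∧ ∀ s : S, (s : A × K).1 ∈ O →
        ∃ v ∈ V, (v : A × K).1 = (s : A × K).1 := by
    intro S hS V hV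
    obtain ⟨V', hV', hV'o, h1V'⟩ := mem_nhds_iff.1 hV
    let f : S →* A := (MonoidHom.fst A K).comp S.subtype
    have hfa : ∀ s : S, f s = (s : A × K).1 := fun s => rfl
    have hsat : IsOpen (V' * (f.ker : Set S)) := hV'o.mul_right
    have hcl1 : IsClosed (Subtype.val '' (V' * (f.ker : Set S))ᶜ) :=
      hS.isClosedEmbedding_subtypeVal.isClosedMap _ hsat.isClosed_compl
    refine ⟨(Prod.fst '' (Subtype.val '' (V' * (f.ker : Set S))ᶜ))ᶜ, (hcp _ hcl1).isOpen_compl,
      ?_, ?_⟩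
    · rintro ⟨_, ⟨s, hs, rfl⟩, hs1⟩
      exact hs ⟨1, h1V', s, hs1, one_mul _⟩
    · intro s hs
      by_contra hcon
      push Not at hcon
      apply hs
      refine ⟨_, ⟨s, ?_, rfl⟩, rfl⟩
      rintro ⟨v, hv, k, hk, hvk⟩
      refine hcon v (hV' hv) ?_
      rw [← hfa, ← hfa, ← hvk]
      change f v = f (v * k)
      rw [map_mul, MonoidHom.mem_ker.1 hk, mul_one]
  constructor
  · intro hA S hS
    let f : S →* A := (MonoidHom.fst A K).comp S.subtype
    refine key hA f ?_ ?_ ?_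
    · have h1 : Set.range f = Prod.fst '' (S : Set (A × K)) := by
        ext a
        constructor
        · rintro ⟨s, rfl⟩
          exact ⟨s, s.2, rfl⟩
        · rintro ⟨s, hs, rfl⟩
          exact ⟨⟨s, hs⟩, rfl⟩
      rw [h1]
      exact hcp _ hS
    · rw [Subtype.isCompact_iff]
      have h1 : (Subtype.val '' (f.ker : Set S)) = (S : Set (A × K)) ∩ ({1} ×ˢ Set.univ) := by
        ext x
        constructor
        · rintro ⟨s, hs, rfl⟩
          exact ⟨s.2, hs, trivial⟩
        · rintro ⟨hx, hx1, -⟩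
          exact ⟨⟨x, hx⟩, hx1, rfl⟩
      rw [h1]
      exact (isCompact_singleton.prod isCompact_univ).inter_left hS
    · intro V hV
      obtain ⟨O, hO, h1, h2⟩ := hop S hS V hV
      exact ⟨O, hO.mem_nhds h1, h2⟩
  · intro hA S hS N _ hN
    let f : S →* A := (MonoidHom.fst A K).comp S.subtype
    let M : Subgroup A := N.map f
    have hM : IsClosed (M : Set A) := by
      have h1 : (M : Set A) = Prod.fst '' (Subtype.val '' (N : Set S)) := by
        ext a
        constructor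
        · rintro ⟨s, hs, rfl⟩
          exact ⟨s, ⟨s, hs, rfl⟩, rfl⟩
        · rintro ⟨_, ⟨s, hs, rfl⟩, rfl⟩
          exact ⟨s, hs, rfl⟩
      rw [h1]
      exact hcp _ (hS.isClosedEmbedding_subtypeVal.isClosedMap _ hN)
    have hAM : Minimal (A ⧸ M) := hA M hM
    let g : (S ⧸ N) →* (A ⧸ M) := QuotientGroup.map N M f (Subgroup.le_comap_map f N)
    have hg : ∀ s : S, g (s : S ⧸ N) = ((f s : A) : A ⧸ M) := fun s => rfl
    have : T2Space (A ⧸ M) := inferInstance
    refine key hAM g ?_ ?_ ?_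
    · rw [← (QuotientGroup.isQuotientMap_mk M).isClosed_preimage]
      have h1 : (QuotientGroup.mk ⁻¹' Set.range g : Set A) = Prod.fst '' (S : Set (A × K)) := by
        ext a
        constructor
        · rintro ⟨x, hx⟩
          obtain ⟨s, rfl⟩ := QuotientGroup.mk_surjective x
          rw [hg, QuotientGroup.eq] at hx
          obtain ⟨n, hn, hn2⟩ := hx
          refine ⟨((s * n : S) : A × K), (s * n).2, ?_⟩
          change f (s * n) = a
          rw [map_mul, hn2]
          simp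
        · rintro ⟨s, hs, rfl⟩
          exact ⟨((⟨s, hs⟩ : S) : S ⧸ N), rfl⟩
      rw [h1]
      exact hcp _ hS
    · have h1 : (g.ker : Set (S ⧸ N)) = QuotientGroup.mk '' (f.ker : Set S) := by
        ext x
        obtain ⟨s, rfl⟩ := QuotientGroup.mk_surjective x
        constructor
        · intro hs
          have h2 : g (s : S ⧸ N) = 1 := hs
          rw [hg, QuotientGroup.eq_one_iff] at h2
          obtain ⟨n, hn, hn2⟩ := h2
          refine ⟨s * n⁻¹, ?_, ?_⟩
          · change f (s * n⁻¹) = 1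
            rw [map_mul, map_inv, hn2]
            simp
          · rw [QuotientGroup.eq]
            simpa using hn
        · rintro ⟨t, ht, hts⟩
          rw [← hts]
          change g (t : S ⧸ N) = 1
          rw [hg, MonoidHom.mem_ker.1 ht]
          rfl
      rw [h1]
      refine IsCompact.image ?_ QuotientGroup.continuous_mk
      rw [Subtype.isCompact_iff]
      have h1 : (Subtype.val '' (f.ker : Set S)) = (S : Set (A × K)) ∩ ({1} ×ˢ Set.univ) := by
        ext x
        constructor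
        · rintro ⟨s, hs, rfl⟩
          exact ⟨s.2, hs, trivial⟩
        · rintro ⟨hx, hx1, -⟩
          exact ⟨⟨x, hx⟩, hx1, rfl⟩
      rw [h1]
      exact (isCompact_singleton.prod isCompact_univ).inter_left hS
    · intro V hV
      have hV2 : (QuotientGroup.mk ⁻¹' V : Set S) ∈ 𝓝 (1 : S) :=
        QuotientGroup.continuous_mk.continuousAt.preimage_mem_nhds hV
      obtain ⟨O, hO, h1, h2⟩ := hop S hS _ hV2
      refine ⟨QuotientGroup.mk '' O, (QuotientGroup.isOpenMap_coe _ hO).mem_nhds ⟨1, h1, rfl⟩, ?_⟩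
      intro x hx
      obtain ⟨s, rfl⟩ := QuotientGroup.mk_surjective x
      obtain ⟨o, ho, hos⟩ := hx
      rw [hg, QuotientGroup.eq] at hos
      obtain ⟨n, hn, hn2⟩ := hos
      have h3 : f (s * n⁻¹) = o := by
        rw [map_mul, map_inv, hn2]
        simp
      obtain ⟨v, hv, hv2⟩ := h2 (s * n⁻¹) (by rw [← h3] at ho; exact ho)
      refine ⟨(v : S ⧸ N), hv, ?_⟩
      rw [hg, hg]
      have h4 : f v = o := hv2.trans h3
      rw [h4, QuotientGroup.eq]
      exact ⟨n, hn, hn2⟩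

end Pool.Agent.Results.MP_35204b_gt.MinimalTimesCompact
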